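import Pool.Agent.Run7.h88.DimGen

/-!
# Furstenberg's conjecture and the local dimension of dilates at the point `0`

For a probability measure `μ` on the circle invariant under `x ↦ 2 x` and `x ↦ 3 x` let `T_k μ` be its
image under `x ↦ k x`.  If `μ` is not Lebesgue measure, then in every infinite set of integers of the
form `2 ^ i 3 ^ j` there are differences `k = g - h ≠ 0` such that `T_k μ` gives a large mass to the
arcs of radius `r` around `0`, at all the scales `r` at the same time.  Consequently Furstenberg's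
conjecture holds if and only if no weak limit of the dilates `T_{2 ^ b - 1} μ` of an atomless invariant
measure `μ` has local dimension `0` at the point `0`.
-/

set_option autoImplicit false

open MeasureTheory Filter Topology

namespace Pool.Agent.Results.MP_e27144_an.DilateDimension

/-- `μ` is a probability measure on the circle, invariant under `x ↦ 2 x` and `x ↦ 3 x`. -/
def Invariant (μ : Measure UnitAddCircle) : Prop :=
  IsProbabilityMeasure μ ∧
  Measure.map (fun x : UnitAddCircle => (2 : ℕ) • x) μ = μ ∧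
  Measure.map (fun x : UnitAddCircle => (3 : ℕ) • x) μ = μ

/-- `κ` is a weak limit of images of `μ` under maps `x ↦ (2 ^ b - 1) x` with `b ≥ 1`. -/
def IsLimitOfDilates (μ κ : Measure UnitAddCircle) : Prop :=
  IsProbabilityMeasure κ ∧ ∃ b : ℕ → ℕ, (∀ n, 1 ≤ b n) ∧ ∀ f : C(UnitAddCircle, ℝ),
    Tendsto (fun n => ∫ x, f ((2 ^ b n - 1 : ℕ) • x) ∂μ) atTop (𝓝 (∫ x, f x ∂κ))

/-- `μ` has local dimension `d` at the point `0`: all the balls around `0` have positive mass, and
`log μ(B(0, r)) / log r → d` as `r → 0`. -/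
def LocalDimensionAtZero (μ : Measure UnitAddCircle) (d : ℝ) : Prop :=
  (∀ r : ℝ, 0 < r → 0 < μ.real {x | ‖x‖ ≤ r}) ∧
  Tendsto (fun r : ℝ => Real.log (μ.real {x | ‖x‖ ≤ r}) / Real.log r) (𝓝[>] 0) (𝓝 d)

lemma vol_ball {r : ℝ} (h0 : 0 ≤ r) (h1 : r ≤ 1 / 2) :
    (volume : Measure UnitAddCircle).real {x | ‖x‖ ≤ r} = 2 * r := by
  have e : {x : UnitAddCircle | ‖x‖ ≤ r} = Metric.closedBall 0 r := by
    ext x
    simp
  rw [e, measureReal_def, AddCircle.volume_closedBall, ENNReal.toReal_ofReal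
    (by rw [le_min_iff]; constructor <;> linarith), min_eq_right (by linarith)]

/-- Lebesgue measure has local dimension `1` at `0`. -/
theorem dim_volume : LocalDimensionAtZero volume 1 := by
  refine ⟨fun r hr => ?_, ?_⟩
  · have h0 : 0 < min r (1 / 2) := lt_min hr (by norm_num)
    have h1 := vol_ball h0.le (min_le_right r (1 / 2))
    have h2 : {x : UnitAddCircle | ‖x‖ ≤ min r (1 / 2)} ⊆ {x | ‖x‖ ≤ r} :=
      fun x (hx : ‖x‖ ≤ _) => show ‖x‖ ≤ r from le_trans hx (min_le_left _ _)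
    have h3 : (volume : Measure UnitAddCircle).real {x | ‖x‖ ≤ min r (1 / 2)} ≤
        (volume : Measure UnitAddCircle).real {x | ‖x‖ ≤ r} := measureReal_mono h2
    rw [h1] at h3
    linarith
  have h1 : Tendsto (fun r : ℝ => Real.log 2 / Real.log r + 1) (𝓝[>] 0) (𝓝 (0 + 1)) :=
    (Real.tendsto_log_nhdsGT_zero.const_div_atBot _).add_const 1
  rw [zero_add] at h1
  refine h1.congr' ?_
  have h2 : ∀ᶠ r : ℝ in 𝓝[>] 0, r < 1 / 2 :=
    (eventually_lt_nhds (by norm_num : (0 : ℝ) < 1 / 2)).filter_mono nhdsWithin_le_nhds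
  filter_upwards [h2, self_mem_nhdsWithin] with r hr hr0
  rw [Set.mem_Ioi] at hr0
  have hlog : Real.log r < 0 := Real.log_neg hr0 (by linarith)
  rw [vol_ball hr0.le hr.le, Real.log_mul (by norm_num) hr0.ne', add_div, div_self hlog.ne]

/-- a function squeezed between `r ^ θ`, for every `θ > 0`, and `1` -/
lemma tendsto_of_ge {F : ℝ → ℝ} (h1 : ∀ r, F r ≤ 1)
    (h : ∀ θ : ℝ, 0 < θ → ∃ r₀ : ℝ, 0 < r₀ ∧ ∀ r : ℝ, 0 < r → r ≤ r₀ → r ^ θ ≤ F r) :
    Tendsto (fun r : ℝ => Real.log (F r) / Real.log r) (𝓝[>] 0) (𝓝 0) := by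
  rw [Metric.tendsto_nhds]
  intro ε hε
  obtain ⟨r₀, hr₀, hr⟩ := h (ε / 2) (by positivity)
  have h2 : ∀ᶠ r : ℝ in 𝓝[>] 0, r < min r₀ 1 :=
    (eventually_lt_nhds (lt_min hr₀ one_pos)).filter_mono nhdsWithin_le_nhds
  filter_upwards [h2, self_mem_nhdsWithin] with r hr1 hr0
  rw [Set.mem_Ioi] at hr0
  rw [lt_min_iff] at hr1
  have hlog : Real.log r < 0 := Real.log_neg hr0 hr1.2
  have h3 := hr r hr0 hr1.1.le
  have hpos : 0 < r ^ (ε / 2) := Real.rpow_pos_of_pos hr0 _
  have h4 : Real.log (F r) ≤ 0 := Real.log_nonpos (hpos.le.trans h3) (h1 r)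
  have h5 : ε / 2 * Real.log r ≤ Real.log (F r) := by
    rw [← Real.log_rpow hr0]
    exact Real.log_le_log hpos h3
  have h6 : 0 ≤ Real.log (F r) / Real.log r := div_nonneg_of_nonpos h4 hlog.le
  have h7 : Real.log (F r) / Real.log r ≤ ε / 2 := by
    rw [div_le_iff_of_neg hlog]
    exact h5
  rw [Real.dist_eq, sub_zero, abs_of_nonneg h6]
  linarith

/-- **Returns at all scales.** For every invariant `μ ≠ λ` (atoms are allowed and no ergodicity is
assumed) there is a function `ω` with `log ω(r) / log r → 0` as `r → 0` such that for every infinite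
set `E` of integers of the form `2 ^ i 3 ^ j` and every `s > 0` there are distinct `g, h ∈ E` with
`μ {x | ‖g x - h x‖ ≤ r} ≥ ω(r)` for all `r ≥ s`. -/
theorem returns (μ : Measure UnitAddCircle) (hμ : Invariant μ) (hne : μ ≠ volume) :
    ∃ ω : ℝ → ℝ, (∀ r, 0 < ω r) ∧
      Tendsto (fun r : ℝ => Real.log (ω r) / Real.log r) (𝓝[>] 0) (𝓝 0) ∧
      ∀ E : Set ℕ, E.Infinite → (∀ g ∈ E, ∃ i j : ℕ, g = 2 ^ i * 3 ^ j) → ∀ s : ℝ, 0 < s →
        ∃ g ∈ E, ∃ h ∈ E, h < g ∧ ∀ r : ℝ, s ≤ r →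
          ω r ≤ μ.real {x : UnitAddCircle | ‖g • x - h • x‖ ≤ r} := by
  have hp := hμ.1
  have h2 : MeasurePreserving (fun x : UnitAddCircle => 2 • x) μ μ :=
    ⟨Run7.h88.smul_meas 2, hμ.2.1⟩
  have h3 : MeasurePreserving (fun x : UnitAddCircle => 3 • x) μ μ :=
    ⟨Run7.h88.smul_meas 3, hμ.2.2⟩
  obtain ⟨ω, h4, h5, h6, h7⟩ := Run7.h88.returns (μ := μ) ⟨h2, h3⟩ hne
  refine ⟨ω, h4, tendsto_of_ge h5 h6, fun E hE hform => h7 E hE ?_⟩
  intro g hg
  obtain ⟨i, j, rfl⟩ := hform g hg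
  have e : (fun x : UnitAddCircle => (2 ^ i * 3 ^ j) • x) =
      (fun x : UnitAddCircle => 2 ^ i • x) ∘ fun x : UnitAddCircle => 3 ^ j • x := by
    funext x
    simp only [Function.comp]
    rw [smul_smul]
  rw [e]
  exact (Run7.h88.pow_inv' h2 i).comp (Run7.h88.pow_inv' h3 j)

/-- An invariant measure different from `λ` has dilates `T_{2 ^ b - 1} μ` which converge to a
measure of local dimension `0` at `0`. -/
theorem limit (μ : Measure UnitAddCircle) (hμ : Invariant μ) (hne : μ ≠ volume) :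
    ∃ κ, IsLimitOfDilates μ κ ∧ LocalDimensionAtZero κ 0 := by
  have hp := hμ.1
  obtain ⟨κ, b, hb, hlim, hdim⟩ := Run7.h88.limit_dil (μ := μ)
    ⟨⟨Run7.h88.smul_meas 2, hμ.2.1⟩, ⟨Run7.h88.smul_meas 3, hμ.2.2⟩⟩ hne
  have hκ : IsProbabilityMeasure (κ : Measure UnitAddCircle) := inferInstance
  refine ⟨κ, ⟨hκ, b, hb, hlim⟩, fun r hr0 => ?_, tendsto_of_ge (fun r => measureReal_le_one) hdim⟩
  obtain ⟨r₀, hr₀, hr⟩ := hdim 1 one_pos
  have h0 : 0 < min r r₀ := lt_min hr0 hr₀
  have h1 := hr (min r r₀) h0 (min_le_right _ _)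
  have h2 : {x : UnitAddCircle | ‖x‖ ≤ min r r₀} ⊆ {x | ‖x‖ ≤ r} :=
    fun x (hx : ‖x‖ ≤ _) => show ‖x‖ ≤ r from le_trans hx (min_le_left _ _)
  exact (Real.rpow_pos_of_pos h0 _).trans_le (h1.trans (measureReal_mono h2))

lemma limit_volume {κ : Measure UnitAddCircle} (h : IsLimitOfDilates volume κ) : κ = volume := by
  obtain ⟨hκ, b, hb, hlim⟩ := h
  refine ext_of_forall_integral_eq_of_IsFiniteMeasure fun f => ?_
  have h1 := hlim f.toContinuousMap
  refine tendsto_nhds_unique h1 (tendsto_const_nhds.congr fun n => ?_)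
  have h2 : MeasurePreserving (fun x : UnitAddCircle => (2 ^ b n - 1 : ℕ) • x) volume volume := by
    have hpos : 1 ≤ (2 ^ b n - 1 : ℕ) := by
      have : 2 ^ 1 ≤ 2 ^ b n := Nat.pow_le_pow_right (by norm_num) (hb n)
      omega
    rcases eq_or_lt_of_le hpos with h1 | h1
    · rw [← h1]
      simp only [one_smul]
      exact MeasurePreserving.id _
    · exact (AddCircle.ergodic_nsmul h1).toMeasurePreserving
  have h3 := integral_map h2.measurable.aemeasurable (μ := volume)
    (f.continuous.aestronglyMeasurable (μ := Measure.map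
      (fun x : UnitAddCircle => (2 ^ b n - 1 : ℕ) • x) volume))
  rw [h2.map_eq] at h3
  exact h3

/-- **Furstenberg's conjecture in terms of the local dimension at `0` of dilates.** -/
theorem result :
    (∀ μ, Invariant μ → μ ≠ volume → ∃ ω : ℝ → ℝ, (∀ r, 0 < ω r) ∧
      Tendsto (fun r : ℝ => Real.log (ω r) / Real.log r) (𝓝[>] 0) (𝓝 0) ∧
      ∀ E : Set ℕ, E.Infinite → (∀ g ∈ E, ∃ i j : ℕ, g = 2 ^ i * 3 ^ j) → ∀ s : ℝ, 0 < s →
        ∃ g ∈ E, ∃ h ∈ E, h < g ∧ ∀ r : ℝ, s ≤ r →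
          ω r ≤ μ.real {x : UnitAddCircle | ‖g • x - h • x‖ ≤ r}) ∧
    ((∀ μ, Invariant μ → (∀ x, μ {x} = 0) → μ = volume) ↔
      ∀ μ κ, Invariant μ → (∀ x, μ {x} = 0) → IsLimitOfDilates μ κ →
        ¬ LocalDimensionAtZero κ 0) := by
  refine ⟨returns, ?_, ?_⟩
  · intro h μ κ hμ hat hκ hdim
    rw [h μ hμ hat] at hκ
    rw [limit_volume hκ] at hdim
    exact zero_ne_one (tendsto_nhds_unique hdim.2 dim_volume.2)
  · intro h μ hμ hat
    by_contra hne
    obtain ⟨κ, hκ, hdim⟩ := limit μ hμ hne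
    exact h μ κ hμ hat hκ hdim

/-- Ergodicity for the joint action. -/
def JointlyErgodic (μ : Measure UnitAddCircle) : Prop :=
  ∀ s : Set UnitAddCircle, MeasurableSet s → (fun x : UnitAddCircle => (2 : ℕ) • x) ⁻¹' s = s →
    (fun x : UnitAddCircle => (3 : ℕ) • x) ⁻¹' s = s → μ s = 0 ∨ μ sᶜ = 0

/-- `κ` is the weak limit of a sequence of atomless jointly ergodic invariant measures. -/
def IsLimitOfErgodic (κ : Measure UnitAddCircle) : Prop :=
  IsProbabilityMeasure κ ∧ ∃ ν : ℕ → Measure UnitAddCircle,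
    (∀ n, Invariant (ν n) ∧ JointlyErgodic (ν n) ∧ ∀ x, ν n {x} = 0) ∧
    ∀ f : C(UnitAddCircle, ℝ), Tendsto (fun n => ∫ x, f x ∂(ν n)) atTop (𝓝 (∫ x, f x ∂κ))

/-- A consequence: Furstenberg's conjecture (for jointly ergodic measures) holds if and only if no
weak limit of atomless jointly ergodic invariant measures has local dimension `0` at `0`. -/
theorem ergodic_form :
    (∀ μ, Invariant μ → JointlyErgodic μ → (∀ x, μ {x} = 0) → μ = volume) ↔
      ∀ κ, IsLimitOfErgodic κ → ¬ LocalDimensionAtZero κ 0 := by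
  constructor
  · rintro h κ ⟨hκ, ν, hν, hlim⟩ hdim
    have e : κ = volume := by
      refine ext_of_forall_integral_eq_of_IsFiniteMeasure fun f => ?_
      refine tendsto_nhds_unique (hlim f.toContinuousMap) (tendsto_const_nhds.congr fun n => ?_)
      rw [h (ν n) (hν n).1 (hν n).2.1 (hν n).2.2]
      rfl
    rw [e] at hdim
    exact zero_ne_one (tendsto_nhds_unique hdim.2 dim_volume.2)
  · intro h μ hμ herg hat
    by_contra hne
    have hp := hμ.1
    obtain ⟨κ, ⟨hκ, b, hb, hlim⟩, hdim⟩ := limit μ hμ hne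
    refine h κ ⟨hκ, fun n => Measure.map (fun x : UnitAddCircle => (2 ^ b n - 1 : ℕ) • x) μ,
      fun n => ?_, fun f => ?_⟩ hdim
    · have hpos : (2 ^ b n - 1 : ℕ) ≠ 0 := by
        have : 2 ^ 1 ≤ 2 ^ b n := Nat.pow_le_pow_right (by norm_num) (hb n)
        omega
      set k : ℕ := 2 ^ b n - 1 with hk
      have hkm := Run7.h88.smul_meas k
      have hinv := Run7.h88.map_inv (μ := μ)
        ⟨⟨Run7.h88.smul_meas 2, hμ.2.1⟩, ⟨Run7.h88.smul_meas 3, hμ.2.2⟩⟩ k
      refine ⟨⟨Measure.isProbabilityMeasure_map hkm.aemeasurable, hinv.1.map_eq, hinv.2.map_eq⟩,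
        ?_, ?_⟩
      · intro s hs h2 h3
        have e2 : (fun x : UnitAddCircle => (2 : ℕ) • x) ⁻¹'
            ((fun x : UnitAddCircle => k • x) ⁻¹' s) = (fun x : UnitAddCircle => k • x) ⁻¹' s := by
          conv_rhs => rw [← h2]
          ext x
          simp only [Set.mem_preimage]
          rw [smul_comm]
        have e3 : (fun x : UnitAddCircle => (3 : ℕ) • x) ⁻¹'
            ((fun x : UnitAddCircle => k • x) ⁻¹' s) = (fun x : UnitAddCircle => k • x) ⁻¹' s := by
          conv_rhs => rw [← h3]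
          ext x
          simp only [Set.mem_preimage]
          rw [smul_comm]
        rw [Measure.map_apply hkm hs, Measure.map_apply hkm hs.compl]
        exact herg _ (hkm hs) e2 e3
      · intro y
        rw [Measure.map_apply hkm (measurableSet_singleton y)]
        have h1 := Run7.h88.coset_mass (μ := μ) (η := 0) (fun x => by
          rw [measureReal_def, hat x]
          simp) (D := (k : ℤ)) (by exact_mod_cast hpos) y
        rw [mul_zero] at h1
        have h2 : μ.real {x : UnitAddCircle | (k : ℤ) • x = y} = 0 :=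
          le_antisymm h1 measureReal_nonneg
        rw [measureReal_eq_zero_iff] at h2
        have e : (fun x : UnitAddCircle => k • x) ⁻¹' {y} = {x | (k : ℤ) • x = y} := by
          ext x
          simp
        rw [e]
        exact h2
    · refine (hlim f).congr fun n => ?_
      rw [integral_map (Run7.h88.smul_meas _).aemeasurable f.continuous.aestronglyMeasurable]

end Pool.Agent.Results.MP_e27144_an.DilateDimension
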