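import Pool.Agent.Run7.h88.Gen

/-!
# The dilates of an invariant measure do not jump over an annulus around Lebesgue measure

Let `μ` be a probability measure on the circle, invariant under `x ↦ 2 x` and `x ↦ 3 x`, without large
atoms.  If `μ` is not close to Lebesgue measure, then some of its images under `x ↦ k x`, which are
again invariant, are close to Lebesgue measure, but not closer than a bound which does not depend
on `μ`.
-/

set_option autoImplicit false

open MeasureTheory Filter Topology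

namespace Pool.Agent.Results.MP_e27144_an.NoJumps

/-- `μ` is a probability measure on the circle, invariant under `x ↦ 2 x` and `x ↦ 3 x`. -/
def Invariant (μ : Measure UnitAddCircle) : Prop :=
  IsProbabilityMeasure μ ∧
  Measure.map (fun x : UnitAddCircle => (2 : ℕ) • x) μ = μ ∧
  Measure.map (fun x : UnitAddCircle => (3 : ℕ) • x) μ = μ

/-- **No jumps.** For all `J ≥ 1` and `ε > 0` there are `η > 0` and `δ > 0` such that every
probability measure `μ` invariant under `x ↦ 2 x` and `x ↦ 3 x`, all of whose atoms have mass at most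
`δ` (for instance atomless), with `|μ^(j)| ≥ ε` for some `1 ≤ j ≤ J` has an integer `k ≥ 1` such that
`η ≤ max (|μ^(k)|, |μ^(2 k)|, …, |μ^(J k)|) < ε`. The `μ^(j k)` are the coefficients of the image of
`μ` under `x ↦ k x`. -/
theorem result (J : ℕ) (hJ : 1 ≤ J) (ε : ℝ) (hε : 0 < ε) :
    ∃ η δ : ℝ, 0 < η ∧ 0 < δ ∧ ∀ μ : Measure UnitAddCircle, Invariant μ →
      (∀ x, μ.real {x} ≤ δ) →
      (∃ j : ℕ, 1 ≤ j ∧ j ≤ J ∧ ε ≤ ‖∫ x, (fourier (j : ℤ) x : ℂ) ∂μ‖) →
      ∃ k : ℕ, 1 ≤ k ∧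
        (∃ j : ℕ, 1 ≤ j ∧ j ≤ J ∧ η ≤ ‖∫ x, (fourier ((j * k : ℕ) : ℤ) x : ℂ) ∂μ‖) ∧
        ∀ j : ℕ, 1 ≤ j → j ≤ J → ‖∫ x, (fourier ((j * k : ℕ) : ℤ) x : ℂ) ∂μ‖ < ε := by
  obtain ⟨η, δ, hη, hδ, h⟩ := Run7.h88.gap_gen hJ hε
  exact ⟨η, δ, hη, hδ, fun μ hμ hat hj => h μ hμ.1
    ⟨⟨Run7.h88.smul_meas 2, hμ.2.1⟩, ⟨Run7.h88.smul_meas 3, hμ.2.2⟩⟩ hat hj⟩

/-- Ergodicity for the joint action. -/
def JointlyErgodic (μ : Measure UnitAddCircle) : Prop :=
  ∀ s : Set UnitAddCircle, MeasurableSet s → (fun x : UnitAddCircle => (2 : ℕ) • x) ⁻¹' s = s →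
    (fun x : UnitAddCircle => (3 : ℕ) • x) ⁻¹' s = s → μ s = 0 ∨ μ sᶜ = 0

/-- A consequence: Furstenberg's conjecture (for jointly ergodic measures) is equivalent to its
restriction to the measures in some neighbourhood of Lebesgue measure. -/
theorem local_form :
    (∀ μ, Invariant μ → JointlyErgodic μ → (∀ x, μ {x} = 0) → μ = volume) ↔
    ∃ (J : ℕ) (ε : ℝ), 0 < ε ∧ ∀ μ, Invariant μ → JointlyErgodic μ → (∀ x, μ {x} = 0) →
      (∀ j : ℕ, 1 ≤ j → j ≤ J → ‖∫ x, (fourier (j : ℤ) x : ℂ) ∂μ‖ < ε) → μ = volume := by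
  constructor
  · intro h
    exact ⟨0, 1, one_pos, fun μ h1 h2 h3 _ => h μ h1 h2 h3⟩
  rintro ⟨J, ε, hε, h⟩ μ hμ herg hat
  have hp := hμ.1
  by_contra hne
  obtain ⟨j₀, hj₀1, hj₀⟩ : ∃ j : ℕ, 1 ≤ j ∧ (∫ x, (fourier (j : ℤ) x : ℂ) ∂μ) ≠ 0 := by
    by_contra hcon
    push Not at hcon
    apply hne
    refine Pool.Agent.Y139.GR.ext_fc fun n => ?_
    rw [Pool.Agent.Y139.GR.fc_volume]
    rcases Int.lt_trichotomy n 0 with hn | hn | hn
    · obtain ⟨k, hk⟩ : ∃ k : ℕ, n = -(k : ℤ) := ⟨n.natAbs, by omega⟩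
      rw [if_neg (by omega), hk, Run7.h88.fc_neg_eq]
      have : Pool.Agent.Y139.GR.fc μ k = 0 := hcon k (by omega)
      rw [this, map_zero]
    · subst hn
      rw [if_pos rfl, Pool.Agent.Y139.GR.fc_zero, probReal_univ]
      simp
    · obtain ⟨k, hk⟩ : ∃ k : ℕ, n = (k : ℤ) := ⟨n.natAbs, by omega⟩
      rw [if_neg (by omega), hk]
      exact hcon k (by omega)
  set ε' : ℝ := min ε ‖∫ x, (fourier (j₀ : ℤ) x : ℂ) ∂μ‖ with hε'
  have hε'0 : 0 < ε' := lt_min hε (norm_pos_iff.2 hj₀)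
  have hJ1 : 1 ≤ max J j₀ := hj₀1.trans (le_max_right _ _)
  obtain ⟨η, δ, hη, hδ, hmain⟩ := result (max J j₀) hJ1 ε' hε'0
  obtain ⟨k, hk1, ⟨j, hj1, hj2, hj3⟩, hk2⟩ := hmain μ hμ (fun x => by
    rw [measureReal_def, hat x]
    simpa using hδ.le) ⟨j₀, hj₀1, le_max_right _ _, min_le_right _ _⟩
  -- the image under multiplication by `k`
  set ρ : Measure UnitAddCircle := Measure.map (fun x : UnitAddCircle => k • x) μ with hρ
  have hkm := Run7.h88.smul_meas k
  have hinv := Run7.h88.map_inv (μ := μ)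
    ⟨⟨Run7.h88.smul_meas 2, hμ.2.1⟩, ⟨Run7.h88.smul_meas 3, hμ.2.2⟩⟩ k
  have hρp : IsProbabilityMeasure ρ := Measure.isProbabilityMeasure_map hkm.aemeasurable
  have hcoef : ∀ i : ℕ, (∫ x, (fourier (i : ℤ) x : ℂ) ∂ρ) =
      ∫ x, (fourier ((i * k : ℕ) : ℤ) x : ℂ) ∂μ := by
    intro i
    rw [hρ, integral_map hkm.aemeasurable (Run7.h88.cont_fourier _).aestronglyMeasurable]
    refine integral_congr_ae (Eventually.of_forall fun x => ?_)
    show (fourier (i : ℤ) (k • x) : ℂ) = _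
    have h1 := Run7.h88.fourier_smul (i : ℤ) (k : ℤ) x
    rw [natCast_zsmul] at h1
    rw [h1]
    push_cast
    rfl
  have hρv : ρ = volume := by
    refine h ρ ⟨hρp, hinv.1.map_eq, hinv.2.map_eq⟩ ?_ ?_ ?_
    · intro s hs h2 h3
      have e2 : (fun x : UnitAddCircle => (2 : ℕ) • x) ⁻¹'
          ((fun x : UnitAddCircle => k • x) ⁻¹' s) = (fun x : UnitAddCircle => k • x) ⁻¹' s := by
        conv_rhs => rw [← h2]
        ext x
        simp only [Set.mem_preimage]
        rw [smul_comm]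
      have e3 : (fun x : UnitAddCircle => (3 : ℕ) • x) ⁻¹'
          ((fun x : UnitAddCircle => k • x) ⁻¹' s) = (fun x : UnitAddCircle => k • x) ⁻¹' s := by
        conv_rhs => rw [← h3]
        ext x
        simp only [Set.mem_preimage]
        rw [smul_comm]
      rw [hρ, Measure.map_apply hkm hs, Measure.map_apply hkm hs.compl]
      exact herg _ (hkm hs) e2 e3
    · intro y
      rw [hρ, Measure.map_apply hkm (measurableSet_singleton y)]
      have h1 := Run7.h88.coset_mass (μ := μ) (η := 0) (fun x => by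
        rw [measureReal_def, hat x]
        simp) (D := (k : ℤ)) (by exact_mod_cast (by omega : k ≠ 0)) y
      rw [mul_zero] at h1
      have h2 : μ.real {x : UnitAddCircle | (k : ℤ) • x = y} = 0 :=
        le_antisymm h1 measureReal_nonneg
      rw [measureReal_eq_zero_iff] at h2
      have e : (fun x : UnitAddCircle => k • x) ⁻¹' {y} = {x | (k : ℤ) • x = y} := by
        ext x
        simp
      rw [e]
      exact h2
    · intro i hi1 hi2
      rw [hcoef]
      exact (hk2 i hi1 (hi2.trans (le_max_left _ _))).trans_le (min_le_left _ _)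
  rw [← hcoef j, hρv, Run7.h88.int_fourier_volume, if_neg (by exact_mod_cast (by omega : j ≠ 0)),
    norm_zero] at hj3
  linarith

end Pool.Agent.Results.MP_e27144_an.NoJumps
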