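import Pool.Agent.Run7.h776.FT.Cob3
import Pool.Agent.Run7.h776.FT.Pr
import Pool.Agent.Run7.h776.FT.Rk
import Pool.Agent.Run7.h776.FT.Mod
import Pool.Agent.Run7.h776.FT.Arc

/-!
# Linear inequalities on the `×p`, `×q`-invariant measures

If Furstenberg's conjecture fails for the primes `p ≠ q`, then the atomless invariant probability
measures satisfy no linear inequality `∫ f dμ ≥ ∫ f dλ` with `f` of bounded variation besides the
obvious ones. In particular one inequality for one arc decides the conjecture. A uniform version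
holds for every single invariant measure.
-/

set_option autoImplicit false

namespace Pool.Agent.Results.MP_e27144_an.OneSidedInequality

open MeasureTheory

/-- The circle `ℝ/ℤ`. -/
abbrev Circ := AddCircle (1 : ℝ)

/-- `μ^(n) = ∫ e(n x) dμ(x)`. -/
noncomputable def coef (μ : Measure Circ) (n : ℤ) : ℂ := ∫ x, (fourier n x : ℂ) ∂μ

/-- Invariant probability measures (atoms allowed). -/
def Invariant (p q : ℕ) (μ : Measure Circ) : Prop :=
  IsProbabilityMeasure μ ∧ MeasurePreserving (fun x : Circ => p • x) μ μ ∧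
    MeasurePreserving (fun x : Circ => q • x) μ μ

/-- Atomless invariant probability measures. -/
def Inv (p q : ℕ) (μ : Measure Circ) : Prop := Invariant p q μ ∧ ∀ x, μ {x} = 0

/-- Furstenberg's conjecture for `p, q`: Lebesgue measure is the only element of `Inv p q`. -/
def Rigid (p q : ℕ) : Prop := ∀ μ : Measure Circ, Inv p q μ → μ = volume

/-- Functions of bounded variation on the circle. -/
def BV (f : Circ → ℝ) : Prop := LocallyBoundedVariationOn (fun t : ℝ => f (t : Circ)) Set.univ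

/-- `f(x) = c + g(x) - g(p x) + k(x) - k(q x)` off a countable set, with `g, k` of bounded
variation. -/
def Trivial (p q : ℕ) (f : Circ → ℝ) : Prop :=
  ∃ (c : ℝ) (g k : Circ → ℝ) (D : Set Circ), BV g ∧ BV k ∧ D.Countable ∧
    ∀ x ∉ D, f x = c + (g x - g (p • x)) + (k x - k (q • x))

/-- `ν = τ * ρ`, where for some `n ≠ 0` the invariant measure `ρ` has the coefficients
`ρ^(a m) = μ^(n m)` and `ρ^(m) = 0` for `a ∤ m`, and `τ` is an invariant measure on the points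
`x` with `N x = 0`. -/
def Relative (p q a N : ℕ) (μ ν : Measure Circ) : Prop :=
  ∃ (n : ℤ) (ρ τ : Measure Circ), n ≠ 0 ∧ Invariant p q ρ ∧ Invariant p q τ ∧
    (∀ m : ℤ, coef ρ (a * m) = coef μ (n * m)) ∧ (∀ m : ℤ, ¬ (a : ℤ) ∣ m → coef ρ m = 0) ∧
    (∀ᵐ x ∂τ, N • x = 0) ∧ ν = (τ.prod ρ).map (fun z => z.1 + z.2)

/-- The arc `[s, t)` of the circle. -/
def arc (s t : ℝ) : Set Circ := (fun y : ℝ => (y : Circ)) '' Set.Ico s t

open Pool.Agent.Run7.h776 in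
lemma inv_iff {p q : ℕ} {μ : Measure Circ} : Inv p q μ ↔ FT.Inv p q μ :=
  ⟨fun ⟨⟨h1, h2, h3⟩, h4⟩ => ⟨h1, h4, h2, h3⟩, fun ⟨h1, h4, h2, h3⟩ => ⟨⟨h1, h2, h3⟩, h4⟩⟩

open Pool.Agent.Run7.h776 in
lemma invariant_iff {p q : ℕ} {μ : Measure Circ} : Invariant p q μ ↔ FT.PInv p q μ :=
  ⟨fun ⟨h1, h2, h3⟩ => ⟨h1, h2, h3⟩, fun ⟨h1, h2, h3⟩ => ⟨h1, h2, h3⟩⟩

open Pool.Agent.Run7.h776 in
lemma rel_iff {p q a N : ℕ} {μ ν : Measure Circ} :
    Relative p q a N μ ν ↔ FT.Rel p q a N μ ν := by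
  unfold Relative FT.Rel
  simp only [invariant_iff]
  rfl

open Pool.Agent.Run7.h776 in
lemma s_mod : FT.S_MOD := FT.t_MOD FT.t_PR FT.t_RK

theorem result : (∀ p q : ℕ, p.Prime → q.Prime → p ≠ q →
    -- one-sided linear inequalities
    (∀ f : Circ → ℝ, BV f → ((∀ μ : Measure Circ, Inv p q μ → ∫ x, f x ≤ ∫ x, f x ∂μ) ↔
      (Rigid p q ∨ Trivial p q f))) ∧
    -- finitely many functions
    (¬ Rigid p q → ∀ (r : ℕ) (f : Fin r → Circ → ℝ), (∀ l, BV (f l)) →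
      (∀ w : Fin r → ℝ, w ≠ 0 → ¬ Trivial p q (fun x => ∑ l, w l * f l x)) →
      ∃ κ : ℝ, 0 < κ ∧ ∀ z : Fin r → ℝ, (∀ l, |z l| ≤ κ) →
        ∃ μ : Measure Circ, Inv p q μ ∧ ∀ l, ∫ x, f l x ∂μ = (∫ x, f l x) + z l) ∧
    -- finitely many Fourier coefficients
    (¬ Rigid p q → ∀ F : Finset ℕ, (∀ m ∈ F, 0 < m ∧ m.Coprime p ∧ m.Coprime q) →
      ∃ κ : ℝ, 0 < κ ∧ ∀ z : ℕ → ℂ, (∀ m ∈ F, ‖z m‖ ≤ κ) →
        ∃ μ : Measure Circ, Inv p q μ ∧ ∀ m ∈ F, coef μ m = z m) ∧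
    -- arcs
    (∀ s t : ℝ, s < t → t < s + 1 →
      (Rigid p q ↔ ∀ μ : Measure Circ, Inv p q μ → t - s ≤ μ.real (arc s t)) ∧
      (Rigid p q ↔ ∀ μ : Measure Circ, Inv p q μ → μ.real (arc s t) ≤ t - s) ∧
      ∃ a : ℕ, 0 < a ∧ a.Coprime p ∧ a.Coprime q ∧ ∀ η : ℝ, 0 < η →
        ∃ (N : ℕ) (δ : ℝ), 0 < N ∧ N.Coprime p ∧ N.Coprime q ∧ 0 < δ ∧
          ∀ μ : Measure Circ, Invariant p q μ → (∃ n : ℤ, n ≠ 0 ∧ η ≤ ‖coef μ n‖) →
            (∃ ν : Measure Circ, Relative p q a N μ ν ∧ ν.real (arc s t) ≤ t - s - δ) ∧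
            (∃ ν : Measure Circ, Relative p q a N μ ν ∧ t - s + δ ≤ ν.real (arc s t))) ∧
    -- one measure
    (∀ f : Circ → ℝ, BV f → ¬ Trivial p q f →
      ∃ a : ℕ, 0 < a ∧ a.Coprime p ∧ a.Coprime q ∧ ∀ η : ℝ, 0 < η →
        ∃ (N : ℕ) (δ : ℝ), 0 < N ∧ N.Coprime p ∧ N.Coprime q ∧ 0 < δ ∧
          ∀ μ : Measure Circ, Invariant p q μ → (∃ n : ℤ, n ≠ 0 ∧ η ≤ ‖coef μ n‖) →
            ∃ ν : Measure Circ, Relative p q a N μ ν ∧ ∫ x, f x ∂ν ≤ (∫ x, f x) - δ) ∧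
    -- relatives stay in the class
    (∀ (a N : ℕ) (μ ν : Measure Circ), Relative p q a N μ ν → Inv p q μ → Inv p q ν) ∧
    -- symmetries
    (∀ (m : ℤ) (c : Circ), m ≠ 0 → ¬ (c = 0 ∧ ∃ i j : ℕ, m = (p : ℤ) ^ i * (q : ℤ) ^ j) →
      (Rigid p q ↔ ∀ μ : Measure Circ, Inv p q μ → μ.map (fun x => m • x + c) = μ))) ∧
    -- Q1
    ((∀ μ : Measure (AddCircle (1 : ℝ)),
        IsProbabilityMeasure μ → NullSingletonClass μ →
        MeasurePreserving (fun x : AddCircle (1 : ℝ) => (2 : ℕ) • x) μ μ →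
        MeasurePreserving (fun x : AddCircle (1 : ℝ) => (3 : ℕ) • x) μ μ → μ = volume) ↔
      ∀ μ : Measure (AddCircle (1 : ℝ)),
        IsProbabilityMeasure μ → NullSingletonClass μ →
        MeasurePreserving (fun x : AddCircle (1 : ℝ) => (2 : ℕ) • x) μ μ →
        MeasurePreserving (fun x : AddCircle (1 : ℝ) => (3 : ℕ) • x) μ μ →
        μ (arc 0 (1 / 2)) ≤ 1 / 2) := by
  have key : ∀ p q : ℕ, p.Prime → q.Prime → p ≠ q → ∀ s t : ℝ, s < t → t < s + 1 →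
      (Rigid p q ↔ ∀ μ : Measure Circ, Inv p q μ → t - s ≤ μ.real (arc s t)) ∧
      (Rigid p q ↔ ∀ μ : Measure Circ, Inv p q μ → μ.real (arc s t) ≤ t - s) := by
    intro p q hp hq hpq s t hst hts
    have h := Pool.Agent.Run7.h776.FT.arc_decides s_mod Pool.Agent.Run7.h776.FT.t_ARC hp hq hpq
      hst hts
    unfold Rigid
    simp only [inv_iff]
    exact h
  refine ⟨fun p q hp hq hpq => ⟨?_, ?_, ?_, ?_, ?_, ?_, ?_⟩, ?_⟩
  · intro f hf
    have h := Pool.Agent.Run7.h776.FT.bv_iff s_mod hp hq hpq (f := f) hf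
    unfold Rigid
    simp only [inv_iff]
    exact h
  · intro hR r f hf hind
    unfold Rigid at hR
    push Not at hR
    obtain ⟨μ₀, hμ₀, hne⟩ := hR
    obtain ⟨κ, hκ, h⟩ := Pool.Agent.Run7.h776.FT.bv_fill s_mod hp hq hpq hf hind
      (inv_iff.1 hμ₀) hne
    refine ⟨κ, hκ, fun z hz => ?_⟩
    obtain ⟨μ, hμ, h1⟩ := h z hz
    exact ⟨μ, inv_iff.2 hμ, h1⟩
  · intro hR F hF
    unfold Rigid at hR
    push Not at hR
    obtain ⟨μ₀, hμ₀, hne⟩ := hR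
    obtain ⟨κ, hκ, h⟩ := Pool.Agent.Run7.h776.FT.free s_mod hp hq hpq F hF
      (inv_iff.1 hμ₀) hne
    refine ⟨κ, hκ, fun z hz => ?_⟩
    obtain ⟨μ, hμ, h1⟩ := h z hz
    exact ⟨μ, inv_iff.2 hμ, h1⟩
  · intro s t hst hts
    obtain ⟨h1, h2⟩ := key p q hp hq hpq s t hst hts
    refine ⟨h1, h2, ?_⟩
    obtain ⟨a, ha, hap, haq, h⟩ := Pool.Agent.Run7.h776.FT.arc_single s_mod
      Pool.Agent.Run7.h776.FT.t_ARC hp hq hpq hst hts
    refine ⟨a, ha, hap, haq, fun η hη => ?_⟩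
    obtain ⟨N, δ, hN, hNp, hNq, hδ, h3⟩ := h η hη
    refine ⟨N, δ, hN, hNp, hNq, hδ, fun μ hμ hn => ?_⟩
    simp only [rel_iff]
    exact h3 μ (invariant_iff.1 hμ) hn
  · intro f hf hT
    obtain ⟨a, ha, hap, haq, h⟩ := Pool.Agent.Run7.h776.FT.bv_single s_mod hp hq hpq (f := f)
      hf hT
    refine ⟨a, ha, hap, haq, fun η hη => ?_⟩
    obtain ⟨N, δ, hN, hNp, hNq, hδ, h3⟩ := h η hη
    refine ⟨N, δ, hN, hNp, hNq, hδ, fun μ hμ hn => ?_⟩
    simp only [rel_iff]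
    exact h3 μ (invariant_iff.1 hμ) hn
  · intro a N μ ν h hμ
    exact inv_iff.2 ((rel_iff.1 h).inv (inv_iff.1 hμ))
  · intro m c hm hmc
    have h := Pool.Agent.Run7.h776.FT.symmetry s_mod hp hq hpq hm c hmc
    unfold Rigid
    simp only [inv_iff]
    exact h
  · have h23 := (key 2 3 Nat.prime_two Nat.prime_three (by norm_num) 0 (1 / 2) (by norm_num)
      (by norm_num)).2
    have hconv : ∀ μ : Measure Circ, Inv 2 3 μ ↔ (IsProbabilityMeasure μ ∧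
        NullSingletonClass μ ∧ MeasurePreserving (fun x : Circ => (2 : ℕ) • x) μ μ ∧
        MeasurePreserving (fun x : Circ => (3 : ℕ) • x) μ μ) := by
      intro μ
      exact ⟨fun ⟨⟨h1, h2, h3⟩, h4⟩ => ⟨h1, ⟨h4⟩, h2, h3⟩,
        fun ⟨h1, ⟨h4⟩, h2, h3⟩ => ⟨⟨h1, h2, h3⟩, h4⟩⟩
    constructor
    · intro h μ h1 h2 h3 h4
      have h5 := h23.1 (fun ν hν => by
        obtain ⟨a1, a2, a3, a4⟩ := (hconv ν).1 hν
        exact h ν a1 a2 a3 a4) μ ((hconv μ).2 ⟨h1, h2, h3, h4⟩)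
      rw [sub_zero, measureReal_def] at h5
      have h6 := (ENNReal.toReal_le_toReal (measure_ne_top μ (arc 0 (1 / 2)))
        (b := 1 / 2) (by simp)).1 (by simpa using h5)
      exact h6
    · intro h μ h1 h2 h3 h4
      refine h23.2 (fun ν hν => ?_) μ ((hconv μ).2 ⟨h1, h2, h3, h4⟩)
      obtain ⟨a1, a2, a3, a4⟩ := (hconv ν).1 hν
      have h5 := h ν a1 a2 a3 a4
      rw [sub_zero, measureReal_def]
      have h6 := ENNReal.toReal_mono (by simp) h5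
      simpa using h6

end Pool.Agent.Results.MP_e27144_an.OneSidedInequality
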