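import Pool.Agent.Run7.h88.Wiener

/-!
# Wiener's lemma at all scales, uniformly in all the `×2`, `×3`-invariant measures

Wiener's lemma says that most of the Fourier coefficients of an atomless measure are small.  We show
that for the measures on the circle invariant under `x ↦ 2 x` and `x ↦ 3 x` (for instance the uniform
measures on the finite orbits) this holds uniformly, and at every scale, once the mass near the
points of bounded order is taken into account.
-/

set_option autoImplicit false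

open MeasureTheory

namespace Pool.Agent.Results.MP_e27144_an.UniformWiener

/-- `μ` is a probability measure on the circle, invariant under `x ↦ 2 x` and `x ↦ 3 x`. -/
def Invariant (μ : Measure UnitAddCircle) : Prop :=
  IsProbabilityMeasure μ ∧
  Measure.map (fun x : UnitAddCircle => (2 : ℕ) • x) μ = μ ∧
  Measure.map (fun x : UnitAddCircle => (3 : ℕ) • x) μ = μ

/-- **Wiener's lemma, uniform in the invariant measure and in the scale.** For every `ε > 0` there
are `D₀` and `K₀` such that for EVERY probability measure `μ` invariant under `x ↦ 2 x` and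
`x ↦ 3 x` there is an integer `1 ≤ D ≤ D₀` with the following property: for every `K ≥ K₀` and every
measurable `φ` with `|φ| ≤ 1`, the mean over `0 ≤ k < K` of
`|∫ φ(x) e(D k x) dμ(x) - ∫_{‖D x‖ ≤ 1 / K} φ(x) dμ(x)| ^ 2` is at most `ε`.
In words: at every scale `K ≥ K₀`, for most `k < K` the point `D k x`, for `x` random with law `μ`,
is close to `0` on the event `‖D x‖ ≤ 1 / K` and independent of `x` and equidistributed on the
complement of this event. -/
theorem result (ε : ℝ) (hε : 0 < ε) : ∃ D₀ K₀ : ℕ, ∀ μ : Measure UnitAddCircle, Invariant μ →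
    ∃ D : ℕ, 1 ≤ D ∧ D ≤ D₀ ∧ ∀ K : ℕ, K₀ ≤ K →
      ∀ φ : UnitAddCircle → ℂ, Measurable φ → (∀ x, ‖φ x‖ ≤ 1) →
        (K : ℝ)⁻¹ * ∑ k ∈ Finset.range K,
          ‖(∫ x, φ x * (fourier ((D : ℤ) * k) x : ℂ) ∂μ) -
            ∫ x in {x | ‖D • x‖ ≤ 1 / (K : ℝ)}, φ x ∂μ‖ ^ 2 ≤ ε := by
  obtain ⟨D₀, K₀, hK₀, h⟩ := Run7.h88.uniform_wiener hε
  refine ⟨D₀, K₀, fun μ hμ => ?_⟩
  obtain ⟨D, h1, h2, h3⟩ := h μ hμ.1
    ⟨⟨Run7.h88.smul_meas 2, hμ.2.1⟩, ⟨Run7.h88.smul_meas 3, hμ.2.2⟩⟩
  refine ⟨D, h1, h2, fun K hK φ hφ hφ1 => ?_⟩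
  have hKpos : (0 : ℝ) < K := by exact_mod_cast (by omega : 0 < K)
  rw [inv_mul_le_iff₀ hKpos, mul_comm]
  exact h3 K hK φ hφ hφ1

end Pool.Agent.Results.MP_e27144_an.UniformWiener
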